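import Pool.Agent.H97.LS.Dim

/-!
# General linear systems miss cones of large codimension

`exists_missing`: if `I` is an ideal of `ℂ[x_σ]` closed under homogeneous components with
`dim (ℂ[x_σ] / I) + k ≤ card σ`, then every non empty open set of `k`-tuples of vectors contains a
tuple such that no non zero combination of it is a zero of `I`.
-/

set_option autoImplicit false

namespace Pool.Agent.H97.LS

open MvPolynomial

/-- homogeneous polynomials at multiples of a point -/
theorem hom_smul {σ : Type} {f : MvPolynomial σ ℂ} {j : ℕ} (hf : f.IsHomogeneous j)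
    (t : ℂ) (x : σ → ℂ) : eval (t • x) f = t ^ j * eval x f := by
  rw [eval_eq, eval_eq, Finset.mul_sum]
  refine Finset.sum_congr rfl fun d hd => ?_
  have h1 : d.degree = j := by
    have h2 := hf (mem_support_iff.1 hd)
    rw [← h2, Finsupp.degree_eq_weight_one]
    rfl
  simp only [Pi.smul_apply, smul_eq_mul, mul_pow]
  rw [Finset.prod_mul_distrib, Finset.prod_pow_eq_pow_sum]
  have h3 : ∑ i ∈ d.support, d i = j := by
    rw [← h1]
    rfl
  rw [h3]
  ring

variable {σ : Type} [Fintype σ]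

/-- the generic point `x + Σ t_i A_i` of the cone over the zeros of `I` -/
noncomputable def joinHom (I : Ideal (MvPolynomial σ ℂ)) {k : ℕ} (A : Fin k → σ → ℂ) :
    MvPolynomial σ ℂ →ₐ[ℂ] MvPolynomial (Fin k) (MvPolynomial σ ℂ ⧸ I) :=
  aeval fun s => C (Ideal.Quotient.mk I (X s)) +
    ∑ i, X i * C (Ideal.Quotient.mk I (C (A i s)))

omit [Fintype σ] in
theorem joinHom_eval (I : Ideal (MvPolynomial σ ℂ)) {k : ℕ} (A : Fin k → σ → ℂ)
    (x : σ → ℂ) (hx : ∀ f ∈ I, eval x f = 0) (t : Fin k → ℂ) (Q : MvPolynomial σ ℂ) :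
    eval₂ (Ideal.Quotient.lift I (eval x) hx) t (joinHom I A Q) = eval (x + ∑ i, t i • A i) Q := by
  have key : (eval₂Hom (Ideal.Quotient.lift I (eval x) hx) t).comp (joinHom I A).toRingHom =
      eval (x + ∑ i, t i • A i) := by
    apply MvPolynomial.ringHom_ext
    · intro r
      simp only [joinHom, AlgHom.toRingHom_eq_coe, RingHom.comp_apply, RingHom.coe_coe,
        eval_C]
      rw [aeval_C]
      have h1 : (algebraMap ℂ (MvPolynomial (Fin k) (MvPolynomial σ ℂ ⧸ I))) r =
          C (Ideal.Quotient.mk I (C r)) := rfl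
      rw [h1, eval₂Hom_C, Ideal.Quotient.lift_mk, eval_C]
    · intro s
      simp only [joinHom, AlgHom.toRingHom_eq_coe, RingHom.comp_apply, RingHom.coe_coe,
        aeval_X, eval_X, map_add, map_sum, map_mul, eval₂Hom_C, eval₂Hom_X',
        Ideal.Quotient.lift_mk, eval_C, Pi.add_apply, Finset.sum_apply, Pi.smul_apply, smul_eq_mul]
  exact congrArg (fun g => g Q) key

theorem lt_of_add_succ_le {a : WithBot ℕ∞} {k n : ℕ}
    (h : a + ((k + 1 : ℕ) : WithBot ℕ∞) ≤ (n : WithBot ℕ∞)) :
    a + (k : WithBot ℕ∞) < (n : WithBot ℕ∞) := by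
  induction a using WithBot.recBotCoe with
  | bot =>
    rw [WithBot.bot_add]
    exact WithBot.bot_lt_coe (n : ℕ∞)
  | coe a =>
    induction a using ENat.recTopCoe with
    | top =>
      exfalso
      have h1 : ((⊤ : ℕ∞) : WithBot ℕ∞) + ((k + 1 : ℕ) : WithBot ℕ∞) = ((⊤ : ℕ∞) : WithBot ℕ∞) := by
        have : (⊤ : ℕ∞) + ((k + 1 : ℕ) : ℕ∞) = ⊤ := top_add _
        exact_mod_cast this
      rw [h1] at h
      have h2 : (⊤ : ℕ∞) ≤ (n : ℕ∞) := by exact_mod_cast h
      exact ENat.natCast_ne_top n (top_le_iff.1 h2)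
    | coe a =>
      have h1 : a + (k + 1) ≤ n := by exact_mod_cast h
      have h2 : a + k < n := by omega
      exact_mod_cast h2

/-- MAIN: general tuples miss the cone -/
theorem exists_missing (I : Ideal (MvPolynomial σ ℂ))
    (hI : ∀ f ∈ I, ∀ j, homogeneousComponent j f ∈ I) : ∀ k : ℕ,
    ringKrullDim (MvPolynomial σ ℂ ⧸ I) + (k : WithBot ℕ∞) ≤ (Fintype.card σ : WithBot ℕ∞) →
    ∀ (A₀ : Fin k → σ → ℂ) (ε : ℝ), 0 < ε → ∃ A : Fin k → σ → ℂ, (∀ i s, ‖A i s - A₀ i s‖ < ε) ∧
      ∀ c : Fin k → ℂ, c ≠ 0 → ∃ f ∈ I, eval (∑ i, c i • A i) f ≠ 0 := by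
  intro k
  induction k with
  | zero =>
    intro _ A₀ ε hε
    refine ⟨A₀, fun i s => by rw [sub_self, norm_zero]; exact hε, fun c hc => ?_⟩
    exact absurd (Subsingleton.elim c 0) hc
  | succ k ih =>
    intro hdim A₀ ε hε
    have hlt := lt_of_add_succ_le hdim
    obtain ⟨A', hA', hmiss⟩ := ih hlt.le (fun i => A₀ i.succ) ε hε
    obtain ⟨Q, hQ0, hQ⟩ := exists_ker (joinHom I A') (by
      rw [MvPolynomial.ringKrullDim_of_isNoetherianRing (R := MvPolynomial σ ℂ ⧸ I) (ι := Fin k)]
      simpa using hlt)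
    obtain ⟨v, hv, hvQ⟩ := exists_ne_in_ball hQ0 (A₀ 0) hε
    refine ⟨Fin.cons v A', ?_, ?_⟩
    · intro i s
      refine Fin.cases ?_ (fun j => ?_) i
      · rw [Fin.cons_zero, ← dist_eq_norm]
        exact (dist_le_pi_dist v (A₀ 0) s).trans_lt hv
      · rw [Fin.cons_succ]
        exact hA' j s
    · intro c hc
      by_contra hcon
      push Not at hcon
      rw [Fin.sum_univ_succ] at hcon
      simp only [Fin.cons_zero, Fin.cons_succ] at hcon
      by_cases hc0 : c 0 = 0
      · rw [hc0, zero_smul, zero_add] at hcon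
        have hne : (fun i : Fin k => c i.succ) ≠ 0 := by
          intro h
          apply hc
          funext i
          refine Fin.cases hc0 (fun j => ?_) i
          exact congrFun h j
        obtain ⟨f, hf, hf0⟩ := hmiss _ hne
        exact hf0 (hcon f hf)
      · apply hvQ
        -- the point `x` of the cone with `v = x + Σ t_i A'_i`
        set w : σ → ℂ := c 0 • v + ∑ i : Fin k, c i.succ • A' i with hw
        have hx : ∀ f ∈ I, eval ((c 0)⁻¹ • w) f = 0 := by
          intro f hf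
          rw [← sum_homogeneousComponent f, map_sum]
          refine Finset.sum_eq_zero fun j _ => ?_
          have h1 := hcon _ (hI f hf j)
          have h2 : eval ((c 0)⁻¹ • w) (homogeneousComponent j f) =
              ((c 0)⁻¹) ^ j * eval w (homogeneousComponent j f) :=
            hom_smul (homogeneousComponent_isHomogeneous j f) _ _
          rw [h2, h1, mul_zero]
        have h3 := joinHom_eval I A' _ hx (fun i => -((c 0)⁻¹ * c i.succ)) Q
        rw [hQ, eval₂_zero] at h3
        rw [← show (c 0)⁻¹ • w + ∑ i : Fin k, (-((c 0)⁻¹ * c i.succ)) • A' i = v from ?_]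
        · exact h3.symm
        · rw [hw, smul_add, smul_smul, inv_mul_cancel₀ hc0, one_smul, Finset.smul_sum, add_assoc,
            ← Finset.sum_add_distrib]
          rw [Finset.sum_eq_zero, add_zero]
          intro i _
          rw [smul_smul, neg_smul, add_neg_cancel]

/-- the same with an open set of tuples -/
theorem exists_system_missing (J : Ideal (MvPolynomial σ ℂ))
    (hJ : ∀ f ∈ J, ∀ j, homogeneousComponent j f ∈ J) (R : ℕ)
    (hdim : ringKrullDim (MvPolynomial σ ℂ ⧸ J) + (R : WithBot ℕ∞) ≤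
      (Fintype.card σ : WithBot ℕ∞))
    (U : Set (Fin R → σ → ℂ)) (hU : IsOpen U) (hne : U.Nonempty) :
    ∃ v ∈ U, ∀ lam : Fin R → ℂ, (∀ f ∈ J, eval (∑ r, lam r • v r) f = 0) → lam = 0 := by
  obtain ⟨A₀, hA₀⟩ := hne
  obtain ⟨ε, hε, hball⟩ := Metric.isOpen_iff.1 hU A₀ hA₀
  obtain ⟨A, hA, hmiss⟩ := exists_missing J hJ R hdim A₀ ε hε
  refine ⟨A, hball ?_, fun lam h => ?_⟩
  · rw [Metric.mem_ball, dist_pi_lt_iff hε]
    intro i
    rw [dist_pi_lt_iff hε]
    intro s
    rw [dist_eq_norm]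
    exact hA i s
  · by_contra hne
    obtain ⟨f, hf, hf0⟩ := hmiss lam hne
    exact hf0 (h f hf)

end Pool.Agent.H97.LS
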