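import Pool.Agent.H97.HY.WinS
import Pool.Agent.H97.HY.Vdm
import Pool.Agent.H32.LD.Exi2

/-!
# Linear systems: the data exist
-/

set_option autoImplicit false

open Finset

namespace Pool.Agent.H97.LS

open Pool.Agent.H97.HY Pool.Agent.H32.LD

/-- the winning property with `R - 1` lost units -/
def WinS {N q D d : ℕ} (R : ℕ) (T : Tw N q D d) : Prop :=
  ∀ (s : MvPolynomial (Fin (N + 1)) ℂ) (J : Finset (Fin q)) (X : Finset (Fin (D * q))),
    X.card + 1 ≤ J.card + (R - 1) → Emp2 T s J (D * q) X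

theorem exists_twS {N d R k : ℕ} (hN : 2 ≤ N) (hR : 1 ≤ R) (h : 7 * (R - 1) ≤ N * k)
    (hd : 3 * N * (8 + k) ≤ d) : ∃ T : Tw N (3 * N) (7 + k) d, WinS R T := by
  obtain ⟨π, hπ⟩ := exists_orders2 N R k hN h hR
  obtain ⟨H, hH⟩ := exists_genPos N (3 * N)
  have hpos : 0 < 3 * N := by omega
  let T : Tw N (3 * N) (7 + k) d :=
    { H := H
      ord := π
      a := fun i => (8 + k) + (if i = ⟨0, hpos⟩ then d - 3 * N * (8 + k) else 0)
      gen := hH
      a_ge := fun i => by omega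
      a_sum := by
        rw [Finset.sum_add_distrib]
        simp only [Finset.sum_const, Finset.card_univ, Fintype.card_fin, smul_eq_mul,
          Finset.sum_ite_eq', Finset.mem_univ, if_true]
        omega }
  exact ⟨T, fun s J X hX => winningS hN T hπ s J X hX⟩

/-- the number of additional orders -/
theorem exists_k {N d R : ℕ} (hN : 2 ≤ N) (hR : 1 ≤ R)
    (hd : (R = 1 ∧ 24 * N ≤ d) ∨ 27 * N + 21 * (R - 1) ≤ d) :
    ∃ k : ℕ, 7 * (R - 1) ≤ N * k ∧ 3 * N * (8 + k) ≤ d := by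
  rcases hd with ⟨h1, h2⟩ | h2
  · refine ⟨0, ?_, ?_⟩
    · rw [h1]
      simp
    · omega
  · refine ⟨(7 * (R - 1) + (N - 1)) / N, ?_, ?_⟩
    · have h3 := Nat.lt_div_mul_add (a := 7 * (R - 1) + (N - 1)) (b := N) (by omega)
      have h4 : (7 * (R - 1) + (N - 1)) / N * N = N * ((7 * (R - 1) + (N - 1)) / N) := Nat.mul_comm _ _
      omega
    · have h3 := Nat.div_mul_le_self (7 * (R - 1) + (N - 1)) N
      have h4 : 3 * N * (8 + (7 * (R - 1) + (N - 1)) / N) =
          24 * N + 3 * ((7 * (R - 1) + (N - 1)) / N * N) := by ring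
      rw [h4]
      omega

end Pool.Agent.H97.LS
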