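import Pool.Agent.H97.HY.Sta
import Pool.Agent.H97.HY.Bro

/-!
# Linear systems: openness and entire curves
-/

set_option autoImplicit false

open Metric Set Filter Topology Finset

namespace Pool.Agent.H97.LS

open Pool.Agent.H97.HY

/-- the member of a linear system -/
noncomputable def mem {N R : ℕ} (S : Fin R → MvPolynomial (Fin (N + 1)) ℂ) (lam : Fin R → ℂ) :
    MvPolynomial (Fin (N + 1)) ℂ := ∑ r, MvPolynomial.C (lam r) * S r

theorem mem_hom {N R d : ℕ} {S : Fin R → MvPolynomial (Fin (N + 1)) ℂ} (hS : ∀ r, (S r).IsHomogeneous d)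
    (lam : Fin R → ℂ) : (mem S lam).IsHomogeneous d := by
  unfold mem
  apply MvPolynomial.IsHomogeneous.sum
  intro r _
  have := (MvPolynomial.isHomogeneous_C (Fin (N + 1)) (lam r)).mul (hS r)
  rwa [zero_add] at this

theorem coeff_mem {N R : ℕ} (S : Fin R → MvPolynomial (Fin (N + 1)) ℂ) (lam : Fin R → ℂ)
    (m : Fin (N + 1) →₀ ℕ) : (mem S lam).coeff m = ∑ r, lam r * (S r).coeff m := by
  unfold mem
  rw [MvPolynomial.coeff_sum]
  apply Finset.sum_congr rfl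
  intro r _
  rw [MvPolynomial.coeff_C_mul]

theorem eval_mem {N R : ℕ} (S : Fin R → MvPolynomial (Fin (N + 1)) ℂ) (lam : Fin R → ℂ)
    (x : Fin (N + 1) → ℂ) :
    MvPolynomial.eval x (mem S lam) = ∑ r, lam r * MvPolynomial.eval x (S r) := by
  unfold mem
  rw [map_sum]
  apply Finset.sum_congr rfl
  intro r _
  rw [map_mul, MvPolynomial.eval_C]

theorem hits_smul {N R : ℕ} (S : Fin R → MvPolynomial (Fin (N + 1)) ℂ) (lam : Fin R → ℂ) {c : ℂ}
    (h : Hits (mem S lam)) : Hits (mem S (c • lam)) := by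
  obtain ⟨f, hf, h0⟩ := h
  refine ⟨f, hf, fun z => ?_⟩
  have h1 := h0 z
  rw [eval_mem] at h1 ⊢
  have : ∑ r, (c • lam) r * MvPolynomial.eval (f z) (S r) =
      c * ∑ r, lam r * MvPolynomial.eval (f z) (S r) := by
    rw [Finset.mul_sum]
    apply Finset.sum_congr rfl
    intro r _
    simp only [Pi.smul_apply, smul_eq_mul]
    ring
  rw [this, h1, mul_zero]

/-- openness -/
theorem open_fam {N d R : ℕ} {S : Fin R → MvPolynomial (Fin (N + 1)) ℂ} (hS : ∀ r, (S r).IsHomogeneous d)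
    (h : ∀ lam : Fin R → ℂ, ‖lam‖ = 1 → ¬ Hits (mem S lam)) :
    ∃ ε > 0, ∀ G : Fin R → MvPolynomial (Fin (N + 1)) ℂ, (∀ r, (G r).IsHomogeneous d) →
      (∀ r m, ‖(G r).coeff m - (S r).coeff m‖ < ε) → ∀ lam : Fin R → ℂ, lam ≠ 0 → ¬ Hits (mem G lam) := by
  by_contra hcon
  have hall : ∀ k : ℕ, ∃ (G : Fin R → MvPolynomial (Fin (N + 1)) ℂ) (lam : Fin R → ℂ),
      (∀ r, (G r).IsHomogeneous d) ∧ (∀ r m, ‖(G r).coeff m - (S r).coeff m‖ < 1 / ((k : ℝ) + 1)) ∧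
      ‖lam‖ = 1 ∧ Hits (mem G lam) := by
    intro k
    by_contra hk
    apply hcon
    refine ⟨1 / ((k : ℝ) + 1), Nat.one_div_pos_of_nat, fun G hG hc lam hlam hh => ?_⟩
    have h0 : ‖lam‖ ≠ 0 := norm_ne_zero_iff.mpr hlam
    refine hk ⟨G, (((‖lam‖⁻¹ : ℝ) : ℂ)) • lam, hG, hc, ?_, hits_smul G lam hh⟩
    rw [norm_smul, Complex.norm_real, norm_inv, norm_norm, inv_mul_cancel₀ h0]
  choose G lam hG hc hlam f hf hf0 using hall
  obtain ⟨lam0, hlam0, hlim⟩ : ∃ lam0 : Fin R → ℂ, ‖lam0‖ = 1 ∧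
      Tendsto lam ((hyperfilter ℕ : Ultrafilter ℕ) : Filter ℕ) (𝓝 lam0) := by
    have hcomp : IsCompact (Metric.sphere (0 : Fin R → ℂ) 1) := isCompact_sphere _ _
    have hU : ((hyperfilter ℕ).map lam : Filter (Fin R → ℂ)) ≤ 𝓟 (Metric.sphere (0 : Fin R → ℂ) 1) := by
      rw [Ultrafilter.coe_map, Filter.le_principal_iff]
      refine Filter.mem_map.mpr (Filter.Eventually.of_forall fun k => ?_)
      simp [hlam k]
    obtain ⟨l, hl, hle⟩ := hcomp.ultrafilter_le_nhds _ hU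
    refine ⟨l, by simpa using hl, ?_⟩
    rwa [Ultrafilter.coe_map] at hle
  obtain ⟨g, hg⟩ := exists_limit_bcurve (hyperfilter ℕ) f (Eventually.of_forall hf)
  refine h lam0 hlam0 ⟨g, hg.bcurve, ?_⟩
  refine IsLim.eval_seq_eq_zero hg (fun z0 => Eventually.of_forall fun k => (hf k).chart z0)
    (mem_hom hS lam0) (fun k => mem_hom (hG k) (lam k)) (fun m => ?_)
    (fun z => Eventually.of_forall fun k => hf0 k z)
  have hGm : ∀ r, Tendsto (fun k => (G k r).coeff m) ((hyperfilter ℕ : Ultrafilter ℕ) : Filter ℕ)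
      (𝓝 ((S r).coeff m)) := by
    intro r
    rw [tendsto_iff_norm_sub_tendsto_zero]
    have h0 : Tendsto (fun k : ℕ => 1 / ((k : ℝ) + 1))
        ((hyperfilter ℕ : Ultrafilter ℕ) : Filter ℕ) (𝓝 0) :=
      (tendsto_one_div_add_atTop_nhds_zero_nat (𝕜 := ℝ)).mono_left Nat.hyperfilter_le_atTop
    exact squeeze_zero (fun k => norm_nonneg _) (fun k => (hc k r m).le) h0
  have hlr : ∀ r, Tendsto (fun k => lam k r) ((hyperfilter ℕ : Ultrafilter ℕ) : Filter ℕ)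
      (𝓝 (lam0 r)) := fun r => (tendsto_pi_nhds.mp hlim) r
  simp_rw [coeff_mem]
  exact tendsto_finset_sum _ fun r _ => (hlr r).mul (hGm r)

/-- entire curves -/
theorem brody_fam {N d R : ℕ} {S : Fin R → MvPolynomial (Fin (N + 1)) ℂ} (hS : ∀ r, (S r).IsHomogeneous d)
    (h : ∀ lam : Fin R → ℂ, ‖lam‖ = 1 → ¬ Hits (mem S lam)) :
    ∃ ε : ℝ, 0 < ε ∧ ∀ G : Fin R → MvPolynomial (Fin (N + 1)) ℂ, (∀ r, (G r).IsHomogeneous d) →
      (∀ r m, ‖(G r).coeff m - (S r).coeff m‖ < ε) → ∀ lam : Fin R → ℂ, lam ≠ 0 →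
        ∀ g : ℂ → (Fin (N + 1) → ℂ), Differentiable ℂ g → (∀ z, g z ≠ 0) →
          (∀ z, ∑ r, lam r * MvPolynomial.eval (g z) (G r) = 0) → ∀ z, ∃ c : ℂ, g z = c • g 0 := by
  obtain ⟨ε, hε, hopen⟩ := open_fam hS h
  refine ⟨ε, hε, fun G hG hc lam hlam g hg hne h0 => ?_⟩
  refine brody (mem_hom hG lam) (hopen G hG hc lam hlam) g hg hne fun z => ?_
  rw [eval_mem]
  exact h0 z

end Pool.Agent.H97.LS
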