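import Pool.Agent.H50.Z.L4_Dim

/-!
# Algebra homomorphisms from a polynomial ring to an algebra of smaller dimension

`exists_ker`: if `B` is a finitely generated `ℂ`-algebra with `dim B < card σ`, then no algebra
homomorphism `ℂ[x_σ] → B` is injective.
-/

set_option autoImplicit false

namespace Pool.Agent.H97.LS

open MvPolynomial

/-- the transcendence degree of a domain of finite type is at most its Krull dimension -/
theorem trdeg_le_dim {D : Type} [CommRing D] [IsDomain D] [Algebra ℂ D] [Algebra.FiniteType ℂ D]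
    (n : ℕ) (h : (n : Cardinal.{0}) ≤ Algebra.trdeg ℂ D) :
    (n : WithBot ℕ∞) ≤ ringKrullDim D := by
  obtain ⟨P, hP⟩ := Ideal.exists_maximal D
  have h1 := H50.Z.height_add_trdeg (k := ℂ) P
  have h2 : Algebra.trdeg ℂ (D ⧸ P) = 0 := by
    let : Field (D ⧸ P) := Ideal.Quotient.field P
    have : Module.Finite ℂ (D ⧸ P) := finite_of_finite_type_of_isJacobsonRing ℂ (D ⧸ P)
    have : Algebra.IsAlgebraic ℂ (D ⧸ P) := inferInstance
    exact _root_.trdeg_eq_zero
  rw [h2, map_zero, add_zero] at h1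
  have h3 : (P.height : WithBot ℕ∞) ≤ ringKrullDim D :=
    Ideal.height_le_ringKrullDim_of_ne_top hP.ne_top
  rw [h1] at h3
  refine le_trans ?_ h3
  have h4 : (n : ℕ∞) ≤ Cardinal.toENat (Algebra.trdeg ℂ D) := by
    have h5 := Cardinal.toENat.monotone' h
    simpa using h5
  exact_mod_cast h4

/-- no algebra homomorphism to an algebra of smaller dimension is injective -/
theorem exists_ker {σ : Type} [Fintype σ] {B : Type} [CommRing B] [Algebra ℂ B]
    [Algebra.FiniteType ℂ B] (φ : MvPolynomial σ ℂ →ₐ[ℂ] B)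
    (h : ringKrullDim B < (Fintype.card σ : WithBot ℕ∞)) : ∃ Q, Q ≠ 0 ∧ φ Q = 0 := by
  by_contra hcon
  push Not at hcon
  have hinj : Function.Injective φ :=
    (injective_iff_map_eq_zero φ).2 fun Q hQ => by_contra fun hne => hcon Q hne hQ
  obtain ⟨q, hq, hqc⟩ := Ideal.exists_comap_eq_of_mem_minimalPrimes_of_injective
    (f := φ.toRingHom) hinj ⊥ (by rw [IsDomain.minimalPrimes_eq_singleton_bot]; rfl)
  have := hq
  let ψ : MvPolynomial σ ℂ →ₐ[ℂ] (B ⧸ q) := (Ideal.Quotient.mkₐ ℂ q).comp φ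
  have hψ : Function.Injective ψ := by
    rw [injective_iff_map_eq_zero]
    intro Q hQ
    have h1 : φ Q ∈ q := Ideal.Quotient.eq_zero_iff_mem.1 hQ
    have h2 : Q ∈ Ideal.comap φ.toRingHom q := h1
    rw [hqc] at h2
    exact h2
  have h3 : Algebra.trdeg ℂ (MvPolynomial σ ℂ) ≤ Algebra.trdeg ℂ (B ⧸ q) :=
    trdeg_le_of_injective ψ hψ
  rw [MvPolynomial.trdeg_of_isDomain] at h3
  have h4 : ((Fintype.card σ : ℕ) : Cardinal.{0}) ≤ Algebra.trdeg ℂ (B ⧸ q) := by
    simpa using h3
  have h5 := trdeg_le_dim _ h4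
  have h6 : ringKrullDim (B ⧸ q) ≤ ringKrullDim B := ringKrullDim_quotient_le q
  exact absurd (h5.trans h6) (not_le.2 h)

/-- a polynomial vanishing on a non empty open set is zero -/
theorem exists_ne_in_ball {σ : Type} [Fintype σ] {Q : MvPolynomial σ ℂ} (hQ : Q ≠ 0)
    (a : σ → ℂ) {ε : ℝ} (hε : 0 < ε) : ∃ v ∈ Metric.ball a ε, eval v Q ≠ 0 := by
  by_contra hcon
  push Not at hcon
  apply hQ
  refine MvPolynomial.funext_set (fun i => Metric.ball (a i) ε) (fun i => ?_) fun x hx => ?_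
  · exact infinite_of_mem_nhds (a i) (Metric.ball_mem_nhds _ hε)
  · rw [map_zero]
    refine hcon x ?_
    rw [Metric.mem_ball, dist_pi_lt_iff hε]
    intro i
    exact hx i (Set.mem_univ i)

end Pool.Agent.H97.LS
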