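import Pool.Agent.H97.LS.Miss
import Pool.Agent.H8.RK.Cone

/-!
# Points of a cone outside a smaller cone in a general linear system

`P` is a property of vectors that holds for all non zero combinations of all `(k + 1)`-tuples close
to one tuple.  If `V(I)` has codimension at most `k` and `V(J)` has smaller dimension than `V(I)`,
then some vector of `V(I)` outside `V(J)` has the property, together with all vectors close to it.
For `I` prime: the vectors of `V(I)` with this property are Zariski dense in `V(I)`.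
-/

set_option autoImplicit false

namespace Pool.Agent.H97.LS

open MvPolynomial

theorem lt_of_add_one_le {a b : WithBot ℕ∞} {n : ℕ} (h : a + 1 ≤ b) (hb : b ≤ (n : WithBot ℕ∞))
    (hb0 : 0 ≤ b) : a < b := by
  induction a using WithBot.recBotCoe with
  | bot =>
    exact lt_of_lt_of_le (WithBot.bot_lt_coe (0 : ℕ∞)) hb0
  | coe a =>
    induction b using WithBot.recBotCoe with
    | bot => exact absurd h (by
        have : ((a : ℕ∞) : WithBot ℕ∞) + 1 = ((a + 1 : ℕ∞) : WithBot ℕ∞) := rfl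
        rw [this]
        exact not_le.2 (WithBot.bot_lt_coe _))
    | coe b =>
      have h1 : a + 1 ≤ b := by exact_mod_cast h
      have h2 : b ≤ (n : ℕ∞) := by exact_mod_cast hb
      have h3 : a < b := by
        have hbt : b ≠ ⊤ := fun h => ENat.natCast_ne_top n (top_le_iff.1 (h ▸ h2))
        have hat : a ≠ ⊤ := by
          intro ha
          rw [ha, top_add] at h1
          exact hbt (top_le_iff.1 h1)
        obtain ⟨a', rfl⟩ := ENat.ne_top_iff_exists.1 hat
        obtain ⟨b', rfl⟩ := ENat.ne_top_iff_exists.1 hbt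
        have h4 : a' + 1 ≤ b' := by exact_mod_cast h1
        exact_mod_cast h4
      exact_mod_cast h3

/-- the codimension is attained -/
theorem exists_codim {b : WithBot ℕ∞} {n k : ℕ} (h : (n : WithBot ℕ∞) ≤ b + (k : WithBot ℕ∞))
    (hb : b ≤ (n : WithBot ℕ∞)) : ∃ m l : ℕ, b = (m : WithBot ℕ∞) ∧ m + l = n ∧ l ≤ k := by
  induction b using WithBot.recBotCoe with
  | bot =>
    rw [WithBot.bot_add] at h
    exact absurd h (not_le.2 (WithBot.bot_lt_coe (n : ℕ∞)))
  | coe b =>
    have h2 : b ≤ (n : ℕ∞) := by exact_mod_cast hb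
    have hbt : b ≠ ⊤ := fun h => ENat.natCast_ne_top n (top_le_iff.1 (h ▸ h2))
    obtain ⟨b', rfl⟩ := ENat.ne_top_iff_exists.1 hbt
    have h3 : b' ≤ n := by exact_mod_cast h2
    have h4 : n ≤ b' + k := by exact_mod_cast h
    exact ⟨b', n - b', rfl, by omega, by omega⟩

section

variable {σ : Type} [Fintype σ]

theorem dim_le_card (I : Ideal (MvPolynomial σ ℂ)) :
    ringKrullDim (MvPolynomial σ ℂ ⧸ I) ≤ (Fintype.card σ : WithBot ℕ∞) := by
  refine (ringKrullDim_quotient_le I).trans ?_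
  rw [MvPolynomial.ringKrullDim_of_isNoetherianRing, ringKrullDim_eq_zero_of_field]
  simp

/-- MAIN: points of `V(I)` outside `V(J)` -/
theorem exists_in_out (I J : Ideal (MvPolynomial σ ℂ))
    (hI : ∀ f ∈ I, ∀ j, homogeneousComponent j f ∈ I)
    (hJ : ∀ f ∈ J, ∀ j, homogeneousComponent j f ∈ J) (k : ℕ)
    (hdim : (Fintype.card σ : WithBot ℕ∞) ≤ ringKrullDim (MvPolynomial σ ℂ ⧸ I) + (k : WithBot ℕ∞))
    (hlt : ringKrullDim (MvPolynomial σ ℂ ⧸ J) < ringKrullDim (MvPolynomial σ ℂ ⧸ I))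
    (P : (σ → ℂ) → Prop) (h0 : ¬ P 0) (A₀ : Fin (k + 1) → σ → ℂ) {ε : ℝ} (hε : 0 < ε)
    (hP : ∀ A : Fin (k + 1) → σ → ℂ, (∀ i s, ‖A i s - A₀ i s‖ < ε) →
      ∀ c : Fin (k + 1) → ℂ, c ≠ 0 → P (∑ i, c i • A i)) :
    ∃ a, P a ∧ (∀ f ∈ I, eval a f = 0) ∧ ∃ f ∈ J, eval a f ≠ 0 := by
  obtain ⟨m, l, hm, hml, hlk⟩ := exists_codim hdim (dim_le_card I)
  rw [hm] at hlt
  have hJd : ringKrullDim (MvPolynomial σ ℂ ⧸ J) + ((l + 1 : ℕ) : WithBot ℕ∞) ≤
      (Fintype.card σ : WithBot ℕ∞) := by
    rw [← hml]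
    generalize ringKrullDim (MvPolynomial σ ℂ ⧸ J) = b at hlt
    induction b using WithBot.recBotCoe with
    | bot =>
      rw [WithBot.bot_add]
      exact bot_le
    | coe b =>
      have h2 : b < (m : ℕ∞) := by exact_mod_cast hlt
      obtain ⟨b', rfl⟩ := ENat.ne_top_iff_exists.1 h2.ne_top
      have h3 : b' < m := by exact_mod_cast h2
      have h4 : b' + (l + 1) ≤ m + l := by omega
      exact_mod_cast h4
  -- the first `l + 1` vectors
  let ι : Fin (l + 1) → Fin (k + 1) := Fin.castLE (by omega)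
  have hι : Function.Injective ι := Fin.castLE_injective _
  obtain ⟨A', hA', hmiss⟩ := exists_missing J hJ (l + 1) hJd (fun i => A₀ (ι i)) ε hε
  classical
  let A : Fin (k + 1) → σ → ℂ := Function.extend ι A' A₀
  have hA : ∀ i s, ‖A i s - A₀ i s‖ < ε := by
    intro i s
    by_cases hi : ∃ j, ι j = i
    · obtain ⟨j, rfl⟩ := hi
      simp only [A]
      rw [hι.extend_apply]
      exact hA' j s
    · simp only [A]
      rw [Function.extend_apply' _ _ _ hi, sub_self, norm_zero]
      exact hε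
  have hsum : ∀ c : Fin (l + 1) → ℂ, c ≠ 0 → P (∑ i, c i • A' i) := by
    intro c hc
    have h1 := hP A hA (Function.extend ι c 0) (by
      intro h
      apply hc
      funext j
      have h2 := congrFun h (ι j)
      rw [hι.extend_apply] at h2
      exact h2)
    have h3 : ∑ i, (Function.extend ι c 0) i • A i = ∑ i, c i • A' i := by
      rw [← Finset.sum_subset (Finset.subset_univ (Finset.univ.image ι))]
      · rw [Finset.sum_image (fun a _ b _ h => hι h)]
        refine Finset.sum_congr rfl fun i _ => ?_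
        simp only [A]
        rw [hι.extend_apply, hι.extend_apply]
      · intro i _ hi
        rw [Function.extend_apply', Pi.zero_apply, zero_smul]
        rintro ⟨j, rfl⟩
        exact hi (Finset.mem_image_of_mem _ (Finset.mem_univ j))
    rwa [h3] at h1
  have hind : LinearIndependent ℂ A' := by
    rw [Fintype.linearIndependent_iff]
    intro c hc i
    by_contra hci
    have h4 := hsum c (fun h => hci (by rw [h]; rfl))
    rw [hc] at h4
    exact h0 h4
  obtain ⟨c, hc, hz⟩ := Pool.Agent.H8.RK.cone_meets I hI l (by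
    rw [hm, ← hml]
    exact_mod_cast le_rfl) A' hind
  exact ⟨∑ i, c i • A' i, hsum c hc, hz, hmiss c hc⟩

/-- openness passes to the members -/
theorem strong_of_open (P : (σ → ℂ) → Prop) {k : ℕ} (A₀ : Fin k → σ → ℂ) {ε : ℝ}
    (hε : 0 < ε) (hP : ∀ A : Fin k → σ → ℂ, (∀ i s, ‖A i s - A₀ i s‖ < ε) →
      ∀ c : Fin k → ℂ, c ≠ 0 → P (∑ i, c i • A i)) :
    ∀ A : Fin k → σ → ℂ, (∀ i s, ‖A i s - A₀ i s‖ < ε / 2) → ∀ c : Fin k → ℂ, c ≠ 0 →
      ∃ δ > 0, ∀ b : σ → ℂ, (∀ s, ‖b s - (∑ i, c i • A i) s‖ < δ) → P b := by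
  intro A hA c hc
  obtain ⟨i₀, hi₀⟩ : ∃ i, c i ≠ 0 := by
    by_contra h
    push Not at h
    exact hc (funext h)
  have hpos : 0 < ‖c i₀‖ := norm_pos_iff.2 hi₀
  refine ⟨‖c i₀‖ * (ε / 2), by positivity, fun b hb => ?_⟩
  have h1 := hP (fun i => if i = i₀ then A i + (c i₀)⁻¹ • (b - ∑ j, c j • A j) else A i) ?_ c hc
  · have h2 : ∑ i, c i • (if i = i₀ then A i + (c i₀)⁻¹ • (b - ∑ j, c j • A j) else A i) = b := by
      have h3 : ∀ i, c i • (if i = i₀ then A i + (c i₀)⁻¹ • (b - ∑ j, c j • A j) else A i) =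
          c i • A i + if i = i₀ then (b - ∑ j, c j • A j) else 0 := by
        intro i
        by_cases hi : i = i₀
        · subst hi
          rw [if_pos rfl, if_pos rfl, smul_add, smul_smul, mul_inv_cancel₀ hi₀, one_smul]
        · rw [if_neg hi, if_neg hi, add_zero]
      rw [Finset.sum_congr rfl fun i _ => h3 i, Finset.sum_add_distrib, Finset.sum_ite_eq',
        if_pos (Finset.mem_univ _)]
      exact add_sub_cancel _ _
    rwa [h2] at h1
  · intro i s
    by_cases hi : i = i₀
    · subst hi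
      rw [if_pos rfl]
      have h4 := hb s
      have h5 : ‖(c i)⁻¹ * (b s - (∑ j, c j • A j) s)‖ < ε / 2 := by
        rw [norm_mul, norm_inv]
        calc ‖c i‖⁻¹ * ‖b s - (∑ j, c j • A j) s‖ < ‖c i‖⁻¹ * (‖c i‖ * (ε / 2)) :=
              mul_lt_mul_of_pos_left h4 (inv_pos.2 hpos)
          _ = ε / 2 := by
            rw [← mul_assoc, inv_mul_cancel₀ hpos.ne', one_mul]
      have h6 : (A i + (c i)⁻¹ • (b - ∑ j, c j • A j)) s - A₀ i s =
          (A i s - A₀ i s) + (c i)⁻¹ * (b s - (∑ j, c j • A j) s) := by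
        simp only [Pi.add_apply, Pi.smul_apply, Pi.sub_apply, smul_eq_mul]
        ring
      rw [h6]
      refine (norm_add_le _ _).trans_lt ?_
      linarith [hA i s]
    · rw [if_neg hi]
      linarith [hA i s]

/-- the components of a product with a form -/
theorem comp_mul_mem (J : Ideal (MvPolynomial σ ℂ)) {q : MvPolynomial σ ℂ} {j : ℕ}
    (hq : q.IsHomogeneous j) (hqJ : q ∈ J) (g : MvPolynomial σ ℂ) (m : ℕ) :
    homogeneousComponent m (g * q) ∈ J := by
  rw [← sum_homogeneousComponent g, Finset.sum_mul, map_sum]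
  refine Submodule.sum_mem _ fun i _ => ?_
  have h2 : homogeneousComponent i g * q ∈ homogeneousSubmodule σ ℂ (i + j) :=
    (homogeneousComponent_isHomogeneous i g).mul hq
  rw [homogeneousComponent_of_mem h2]
  split_ifs
  · exact J.mul_mem_left _ hqJ
  · exact J.zero_mem

/-- MAIN for prime ideals: Zariski density -/
theorem exists_in_prime (I : Ideal (MvPolynomial σ ℂ)) [hprime : I.IsPrime]
    (hI : ∀ f ∈ I, ∀ j, homogeneousComponent j f ∈ I) (k : ℕ)
    (hdim : (Fintype.card σ : WithBot ℕ∞) ≤ ringKrullDim (MvPolynomial σ ℂ ⧸ I) + (k : WithBot ℕ∞))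
    (Q : MvPolynomial σ ℂ) (hQ : Q ∉ I)
    (P : (σ → ℂ) → Prop) (h0 : ¬ P 0) (hPs : ∀ a (t : ℂ), t ≠ 0 → P a → P (t • a))
    (A₀ : Fin (k + 1) → σ → ℂ) {ε : ℝ} (hε : 0 < ε)
    (hP : ∀ A : Fin (k + 1) → σ → ℂ, (∀ i s, ‖A i s - A₀ i s‖ < ε) →
      ∀ c : Fin (k + 1) → ℂ, c ≠ 0 → P (∑ i, c i • A i)) :
    ∃ a, P a ∧ (∀ f ∈ I, eval a f = 0) ∧ eval a Q ≠ 0 := by
  obtain ⟨j, hj⟩ : ∃ j, homogeneousComponent j Q ∉ I := by
    by_contra h
    push Not at h
    apply hQ
    rw [← sum_homogeneousComponent Q]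
    exact Submodule.sum_mem _ fun i _ => h i
  set q := homogeneousComponent j Q with hq
  have hqh : q.IsHomogeneous j := homogeneousComponent_isHomogeneous j Q
  set J : Ideal (MvPolynomial σ ℂ) := I ⊔ Ideal.span {q} with hJdef
  have hIJ : I ≤ J := le_sup_left
  have hqJ : q ∈ J := Ideal.mem_sup_right (Ideal.subset_span rfl)
  have hJ : ∀ f ∈ J, ∀ m, homogeneousComponent m f ∈ J := by
    intro f hf m
    obtain ⟨p, hp, r, hr, rfl⟩ := Submodule.mem_sup.1 hf
    obtain ⟨g, rfl⟩ := Ideal.mem_span_singleton'.1 hr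
    rw [map_add]
    exact J.add_mem (hIJ (hI p hp m)) (comp_mul_mem J hqh hqJ g m)
  have hlt : ringKrullDim (MvPolynomial σ ℂ ⧸ J) < ringKrullDim (MvPolynomial σ ℂ ⧸ I) := by
    have h1 : ringKrullDim (MvPolynomial σ ℂ ⧸ J) + 1 ≤ ringKrullDim (MvPolynomial σ ℂ ⧸ I) := by
      refine ringKrullDim_succ_le_of_surjective (Ideal.Quotient.factor hIJ)
        (Ideal.Quotient.factor_surjective hIJ) (r := Ideal.Quotient.mk I q) ?_ ?_
      · rw [mem_nonZeroDivisors_iff_ne_zero, Ne, Ideal.Quotient.eq_zero_iff_mem]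
        exact hj
      · rw [Ideal.Quotient.factor_mk, Ideal.Quotient.eq_zero_iff_mem]
        exact hqJ
    exact lt_of_add_one_le h1 (dim_le_card I) ringKrullDim_nonneg_of_nontrivial
  obtain ⟨a, haP, haI, f, hfJ, hfa⟩ := exists_in_out I J hI hJ k hdim hlt P h0 A₀ hε hP
  have hqa : eval a q ≠ 0 := by
    intro h
    apply hfa
    obtain ⟨p, hp, r, hr, rfl⟩ := Submodule.mem_sup.1 hfJ
    obtain ⟨g, rfl⟩ := Ideal.mem_span_singleton'.1 hr
    rw [map_add, haI p hp, map_mul, h, mul_zero, add_zero]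
  -- scaling
  obtain ⟨t, ht, htQ⟩ : ∃ t : ℂ, t ≠ 0 ∧ eval (t • a) Q ≠ 0 := by
    by_contra hcon
    push Not at hcon
    apply hqa
    let R : Polynomial ℂ := ∑ i ∈ Finset.range (Q.totalDegree + 1),
      Polynomial.monomial i (eval a (homogeneousComponent i Q))
    have hR : ∀ t : ℂ, R.eval t = eval (t • a) Q := by
      intro t
      conv_rhs => rw [← sum_homogeneousComponent Q]
      rw [map_sum]
      simp only [R]
      rw [Polynomial.eval_finsetSum]
      refine Finset.sum_congr rfl fun i _ => ?_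
      rw [Polynomial.eval_monomial, hom_smul (homogeneousComponent_isHomogeneous i Q)]
      ring
    have hR0 : R = 0 := by
      apply Polynomial.eq_zero_of_infinite_isRoot
      refine Set.Infinite.mono (s := {t : ℂ | t ≠ 0}) ?_ ?_
      · intro t ht
        rw [Set.mem_ofPred_eq, Polynomial.IsRoot.def, hR]
        exact hcon t ht
      · exact (Set.finite_singleton (0 : ℂ)).infinite_compl
    have h5 : R.coeff j = eval a q := by
      simp only [R]
      rw [Polynomial.finsetSum_coeff]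
      simp only [Polynomial.coeff_monomial]
      rw [Finset.sum_ite_eq']
      split_ifs with h6
      · rfl
      · rw [Finset.mem_range, not_lt] at h6
        rw [hq, homogeneousComponent_eq_zero j Q (by omega), map_zero]
    rw [← h5, hR0, Polynomial.coeff_zero]
  refine ⟨t • a, hPs a t ht haP, fun f hf => ?_, htQ⟩
  rw [← sum_homogeneousComponent f, map_sum]
  refine Finset.sum_eq_zero fun i _ => ?_
  rw [hom_smul (homogeneousComponent_isHomogeneous i f), haI _ (hI f hf i), mul_zero]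

end

end Pool.Agent.H97.LS
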